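import Pool.Agent.R206.QuatG

/-!
# MP_9437d9_an, Q1 (proved)

If the system `A_ℓ x^(ℓ) + … + A_1 x' + A_0 x = 0` over the real quaternions, with `A_k` hermitian for
odd `k` and skewhermitian for even `k` and with `A_ℓ` invertible, is stably bounded, then every root
subspace of its companion matrix `C` is `G`-positive or `G`-negative.

The definitions are in `Pool/Agent/H636R3/QDefs.lean` and `Pool/Agent/R206/QuatG.lean`.
-/

set_option autoImplicit false

open Matrix

namespace Pool.Agent.Results.MP_9437d9_an.DefiniteRootSubspaces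

open Pool.Agent.H636R3.Quat Pool.Agent.R206.QuatG

/-- **Q1 holds.** -/
theorem result (n ℓ : ℕ) (hℓ : 1 ≤ ℓ) (A : ℕ → Matrix (Fin n) (Fin n) H)
    (hA : SymCoeffG ℓ A) (hinv : IsUnit (A ℓ)) (hst : IsStablyBoundedG ℓ A)
    (l : H) (hl : IsEigenvalue (companion ℓ A) l) :
    IsPositiveOn (gmat ℓ A) (rootSubspace (companion ℓ A) l) ∨
      IsNegativeOn (gmat ℓ A) (rootSubspace (companion ℓ A) l) := by
  obtain ⟨L, rfl⟩ : ∃ L, ℓ = L + 1 := ⟨ℓ - 1, by omega⟩
  set C := companion (L + 1) A with hCdef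
  -- the system is bounded
  have hb : IsBoundedSystem (L + 1) A := by
    obtain ⟨ε, hε, h⟩ := hst
    exact h A hA (fun k _ a b => by rw [sub_self, norm_zero]; exact hε)
  -- the eigenvalue is purely imaginary
  obtain ⟨V, hV0, hV⟩ := hl
  have hre : l.re = 0 := by
    by_contra hre
    exact unbounded_exp (eigvec_ne hV hV0) hre (eigvec_eq hinv hV) hb
  have hn : 1 ≤ n := by
    rcases Nat.eq_zero_or_pos n with h | h
    · exfalso
      apply hV0
      funext ⟨k, a⟩
      subst h
      exact a.elim0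
    · exact h
  have hcard : Fintype.card (Fin (L + 1) × Fin n) =
      (Fintype.card (Fin (L + 1) × Fin n) - 1) + 1 := by
    have : 0 < Fintype.card (Fin (L + 1) × Fin n) := by
      rw [Fintype.card_prod, Fintype.card_fin, Fintype.card_fin]
      exact Nat.mul_pos (by omega) (by omega)
    omega
  -- the form is real
  have hreal : ∀ W : Fin (L + 1) × Fin n → H,
      star W ⬝ᵥ (gmat (L + 1) A *ᵥ W) = ((qg A W : ℝ) : H) := by
    intro W
    have h1 : star (star W ⬝ᵥ (gmat (L + 1) A *ᵥ W)) = star W ⬝ᵥ (gmat (L + 1) A *ᵥ W) := by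
      rw [← Matrix.star_dotProduct_star, star_star, Matrix.star_mulVec, gmat_herm hA,
        Matrix.dotProduct_mulVec]
    exact Quaternion.star_eq_self.1 h1
  have hq0 : qg A (0 : Fin (L + 1) × Fin n → H) = 0 := by
    have := qg_smul (A := A) (0 : ℝ) (0 : Fin (L + 1) × Fin n → H)
    rw [smul_zero] at this
    rw [this]; ring
  -- it suffices to split vectors of the root subspace into eigenvectors
  suffices hdec : ∃ μ : ℝ, ∀ W ∈ rootSubspace C l, W ≠ 0 → ∃ a b : Fin (L + 1) × Fin n → H,
      C *ᵥ a = (fun p => a p * om μ) ∧ C *ᵥ b = (fun p => b p * om μ) ∧ (a ≠ 0 ∨ b ≠ 0) ∧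
      qg A W = qg A a + qg A b by
    obtain ⟨μ, hdec⟩ := hdec
    have hneg : ∀ W ∈ rootSubspace C l, W ≠ 0 → qg A W ≤ 0 → ∃ c : Fin (L + 1) × Fin n → H,
        C *ᵥ c = (fun p => c p * om μ) ∧ c ≠ 0 ∧ qg A c < 0 := by
      intro W hW hW0 hle
      obtain ⟨a, b, ha, hb', hab, hq⟩ := hdec W hW hW0
      by_cases ha0 : a = 0
      · have hb0 : b ≠ 0 := by rcases hab with h | h; exact absurd ha0 h; exact h
        rw [ha0, hq0, zero_add] at hq
        exact ⟨b, hb', hb0, lt_of_le_of_ne (hq ▸ hle) (no_neutral hA hinv hst hb' hb0)⟩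
      · by_cases hb0 : b = 0
        · rw [hb0, hq0, add_zero] at hq
          exact ⟨a, ha, ha0, lt_of_le_of_ne (hq ▸ hle) (no_neutral hA hinv hst ha ha0)⟩
        · by_cases hqa : qg A a ≤ 0
          · exact ⟨a, ha, ha0, lt_of_le_of_ne hqa (no_neutral hA hinv hst ha ha0)⟩
          · push Not at hqa
            exact ⟨b, hb', hb0, by linarith⟩
    have hpos : ∀ W ∈ rootSubspace C l, W ≠ 0 → 0 ≤ qg A W → ∃ c : Fin (L + 1) × Fin n → H,
        C *ᵥ c = (fun p => c p * om μ) ∧ c ≠ 0 ∧ 0 < qg A c := by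
      intro W hW hW0 hle
      obtain ⟨a, b, ha, hb', hab, hq⟩ := hdec W hW hW0
      by_cases ha0 : a = 0
      · have hb0 : b ≠ 0 := by rcases hab with h | h; exact absurd ha0 h; exact h
        rw [ha0, hq0, zero_add] at hq
        exact ⟨b, hb', hb0, lt_of_le_of_ne (hq ▸ hle) (no_neutral hA hinv hst hb' hb0).symm⟩
      · by_cases hb0 : b = 0
        · rw [hb0, hq0, add_zero] at hq
          exact ⟨a, ha, ha0, lt_of_le_of_ne (hq ▸ hle) (no_neutral hA hinv hst ha ha0).symm⟩
        · by_cases hqa : 0 ≤ qg A a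
          · exact ⟨a, ha, ha0, lt_of_le_of_ne hqa (no_neutral hA hinv hst ha ha0).symm⟩
          · push Not at hqa
            exact ⟨b, hb', hb0, by linarith⟩
    by_cases hall : ∀ W ∈ rootSubspace C l, W ≠ 0 → 0 < qg A W
    · left
      intro W hW hW0
      exact ⟨qg A W, hall W hW hW0, hreal W⟩
    · right
      push Not at hall
      obtain ⟨W1, hW1, hW10, hle1⟩ := hall
      obtain ⟨c, hc, hc0, hqc⟩ := hneg W1 hW1 hW10 hle1
      intro W hW hW0
      refine ⟨qg A W, ?_, hreal W⟩
      by_contra hcon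
      push Not at hcon
      obtain ⟨d, hd, -, hqd⟩ := hpos W hW hW0 hcon
      exact definite_eig hA hinv hst hc hc0 hd hqc hqd
  by_cases hl0 : l = 0
  · -- the eigenvalue zero
    refine ⟨0, ?_⟩
    have hom : om 0 = 0 := rfl
    have hroot : rootPoly C l = C := by
      unfold rootPoly
      rw [if_pos (by rw [hre, hl0]; exact Quaternion.coe_zero.symm), hre, zero_smul, sub_zero]
    intro W hW hW0
    have hW' : C ^ (Fintype.card (Fin (L + 1) × Fin n)) *ᵥ W = 0 := by
      rw [← hroot]; exact hW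
    have hstep : ∀ k : ℕ, C ^ (k + 1) *ᵥ W = 0 → C *ᵥ W = 0 := by
      intro k
      induction k with
      | zero => intro h; rwa [zero_add, pow_one] at h
      | succ k ih =>
        intro h
        apply ih
        rw [pow_succ', ← Matrix.mulVec_mulVec]
        apply kernel_zero hinv hb
        rw [← hCdef, Matrix.mulVec_mulVec, Matrix.mulVec_mulVec, ← sq, ← pow_add,
          show 2 + k = k + 1 + 1 by ring]
        exact h
    rw [hcard] at hW'
    have h1 := hstep _ hW'
    refine ⟨W, 0, ?_, ?_, Or.inl hW0, ?_⟩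
    · rw [h1, hom]
      funext p
      rw [mul_zero, Pi.zero_apply]
    · rw [Matrix.mulVec_zero]
      funext p
      rw [Pi.zero_apply, zero_mul]
    · rw [hq0, add_zero]
  · -- a nonzero purely imaginary eigenvalue
    set μ : ℝ := ‖l‖ with hμdef
    have hμ : 0 < μ := norm_pos_iff.2 hl0
    refine ⟨μ, ?_⟩
    have hnotreal : ¬ l = (l.re : H) := by
      rw [hre]
      intro h
      exact hl0 (h.trans Quaternion.coe_zero)
    have hroot : rootPoly C l = C ^ 2 + (μ ^ 2) • 1 := by
      unfold rootPoly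
      rw [if_neg hnotreal, hre, mul_zero, zero_smul, sub_zero]
    have hker : ∀ W ∈ rootSubspace C l, C *ᵥ (C *ᵥ W) = -((μ ^ 2) • W) := by
      intro W hW
      have hW' : (C ^ 2 + (μ ^ 2) • 1) ^ (Fintype.card (Fin (L + 1) × Fin n)) *ᵥ W = 0 := by
        rw [← hroot]; exact hW
      have hstep : ∀ k : ℕ, (C ^ 2 + (μ ^ 2) • 1) ^ (k + 1) *ᵥ W = 0 →
          (C ^ 2 + (μ ^ 2) • 1) *ᵥ W = 0 := by
        intro k
        induction k with
        | zero => intro h; rwa [zero_add, pow_one] at h
        | succ k ih =>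
          intro h
          apply ih
          rw [pow_succ', ← Matrix.mulVec_mulVec]
          apply kernel_sq hinv hb hμ
          rw [← hCdef, Matrix.mulVec_mulVec, Matrix.mulVec_mulVec, ← sq, ← pow_add,
            show 2 + k = k + 1 + 1 by ring]
          exact h
      rw [hcard] at hW'
      have h1 := hstep _ hW'
      rw [Matrix.add_mulVec, sq C, ← Matrix.mulVec_mulVec, Matrix.smul_mulVec,
        Matrix.one_mulVec] at h1
      exact eq_neg_of_add_eq_zero_left h1
    intro W hW hW0
    obtain ⟨a, b, ha, hb', hab⟩ := decompose C hμ W (hker W hW)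
    refine ⟨a, b, ha, hb', ?_, ?_⟩
    · by_contra hcon
      push Not at hcon
      apply hW0
      rw [hab, hcon.1, hcon.2]
      funext p; simp
    · rw [hab]; exact qg_decompose hA hinv hμ ha hb'

end Pool.Agent.Results.MP_9437d9_an.DefiniteRootSubspaces
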